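import Mathlib.Combinatorics.SimpleGraph.Paths

/-! Opening a cycle at one of its edges. -/

set_option autoImplicit false

namespace Pool.Agent.E8helper79.RG

open SimpleGraph

theorem cyc {V : Type} [DecidableEq V] (G : SimpleGraph V) (v : V) (w : G.Walk v v) (X Y : V)
    (hw : w.IsCycle) (hXY : s(X, Y) ∈ w.edges) :
    ∃ p : G.Walk Y X, p.length + 1 = w.length ∧ ∀ e ∈ p.edges, e ∈ w.edges ∧ e ≠ s(X, Y) := by
  have hX : X ∈ w.support := w.fst_mem_support_of_mem_edges hXY
  have hrot := w.rotate_edges X hX
  have hw' := hw.rotate hX
  have hlen : (w.rotate X hX).length = w.length := by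
    rw [← Walk.length_edges, ← Walk.length_edges]
    exact hrot.perm.length_eq
  have hmem : ∀ e, e ∈ (w.rotate X hX).edges ↔ e ∈ w.edges := fun e => hrot.mem_iff
  rw [← hlen]
  rw [← hmem] at hXY
  suffices h : ∃ p : G.Walk Y X, p.length + 1 = (w.rotate X hX).length ∧
      ∀ e ∈ p.edges, e ∈ (w.rotate X hX).edges ∧ e ≠ s(X, Y) by
    obtain ⟨p, h1, h2⟩ := h
    exact ⟨p, h1, fun e he => ⟨(hmem e).1 (h2 e he).1, (h2 e he).2⟩⟩
  generalize w.rotate X hX = w' at *
  clear hmem hlen hrot
  cases w' with
  | nil => exact absurd hw' (by simp)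
  | @cons _ a _ h p =>
    rw [Walk.cons_isCycle_iff] at hw'
    obtain ⟨hp, hnot⟩ := hw'
    rw [Walk.edges_cons, List.mem_cons] at hXY
    by_cases hYa : Y = a
    · subst hYa
      refine ⟨p, rfl, fun e he => ⟨?_, fun h' => hnot (h' ▸ he)⟩⟩
      rw [Walk.edges_cons]
      exact List.mem_cons_of_mem _ he
    · have h1 : s(X, Y) ∈ p.edges := by
        rcases hXY with h2 | h2
        · exact absurd (Sym2.congr_right.1 h2) hYa
        · exact h2
      have hpr : p.reverse.IsPath := hp.reverse
      have h2 : s(X, Y) ∈ p.reverse.edges := by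
        rw [Walk.edges_reverse, List.mem_reverse]
        exact h1
      have hlenr : p.reverse.length = p.length := p.length_reverse
      have hmemr : ∀ e, e ∈ p.reverse.edges → e ∈ p.edges := fun e he => by
        rwa [Walk.edges_reverse, List.mem_reverse] at he
      generalize p.reverse = r at *
      cases r with
      | nil => simp at h2
      | @cons _ b _ h' q =>
        rw [Walk.cons_isPath_iff] at hpr
        obtain ⟨hq, hXq⟩ := hpr
        rw [Walk.edges_cons, List.mem_cons] at h2
        have hYb : Y = b := by
          rcases h2 with h3 | h3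
          · exact Sym2.congr_right.1 h3
          · exact absurd (q.fst_mem_support_of_mem_edges h3) hXq
        subst hYb
        refine ⟨q.concat h.symm, ?_, ?_⟩
        · rw [Walk.length_concat, Walk.length_cons, ← hlenr, Walk.length_cons]
        · intro e he
          rw [Walk.edges_concat, List.concat_eq_append, List.mem_append, List.mem_singleton] at he
          rw [Walk.edges_cons, List.mem_cons]
          rcases he with he | he
          · refine ⟨Or.inr (hmemr e ?_), ?_⟩
            · rw [Walk.edges_cons]
              exact List.mem_cons_of_mem _ he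
            · rintro rfl
              exact hXq (q.fst_mem_support_of_mem_edges he)
          · refine ⟨Or.inl (by rw [he, Sym2.eq_swap]), ?_⟩
            rintro rfl
            rw [Sym2.eq_swap (a := a)] at he
            exact hYa (Sym2.congr_right.1 he)

end Pool.Agent.E8helper79.RG
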