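import Pool.Agent.E8helper30.RG.Stm2
import Pool.Agent.E8helper79.RG.CycA

/-! CYC: opening a cycle at one of its edges. -/

set_option autoImplicit false

namespace Pool.Agent.E8helper79.RG

theorem t_CYC : Pool.Agent.E8helper30.RG.S_CYC :=
  fun _ G v w X Y hw h => cyc G v w X Y hw h

end Pool.Agent.E8helper79.RG
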