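import Pool.Agent.E8helper30.RG.Ind
import Pool.Agent.E8helper30.RG.Stm4

/-! UPATH: paths of vertices of degree two are short. -/

set_option autoImplicit false

namespace Pool.Agent.E8helper79.RG

open SimpleGraph
open Pool.Agent.E8helper30.RG (darts dg darts_erase dg_erase S_UPATH)
open scoped Classical

variable {n : ℕ}

theorem dg_mono (G : SimpleGraph (Fin n)) {W W' : Finset (Fin n)} (h : W ⊆ W') (x : Fin n) :
    dg G W x ≤ dg G W' x := by
  unfold dg
  exact Finset.card_le_card (Finset.filter_subset_filter _ h)

theorem path_darts (G : SimpleGraph (Fin n)) (S : Finset (Fin n)) {u v : Fin n} (p : G.Walk u v) :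
    p.IsPath → (∀ w ∈ p.support, w ∈ S) → (∀ w ∈ p.support.tail, dg G S w = 2) →
    (darts G S).card ≤ (darts G (S \ p.support.tail.toFinset)).card + 2 * p.length +
      (if p.length = 0 then 0 else 2) := by
  induction p with
  | nil =>
    intro _ _ _
    simp
  | @cons u u' v h q ih =>
    intro hp hS hd
    have hq := ((Walk.cons_isPath_iff h q).1 hp).1
    have htail : (Walk.cons h q).support.tail = q.support := by rw [Walk.support_cons]; rfl
    rw [htail] at hd ⊢
    have hSq : ∀ w ∈ q.support, w ∈ S := fun w hw => hS w (by
      rw [Walk.support_cons]; exact List.mem_cons_of_mem _ hw)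
    have hcons : q.support = u' :: q.support.tail := Walk.support_eq_cons q
    have htq : ∀ w ∈ q.support.tail, w ∈ q.support := fun w hw => List.mem_of_mem_tail hw
    have hih := ih hq hSq fun w hw => hd w (htq w hw)
    have hnd : u' ∉ q.support.tail := by
      have h1 := hq.support_nodup
      rw [hcons] at h1
      exact (List.nodup_cons.1 h1).1
    set S' := S \ q.support.tail.toFinset with hS'
    have hu' : u' ∈ S' := by
      rw [hS', Finset.mem_sdiff, List.mem_toFinset]
      exact ⟨hSq u' (Walk.start_mem_support q), hnd⟩
    have hE : S \ q.support.toFinset = S'.erase u' := by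
      ext w
      rw [Finset.mem_sdiff, Finset.mem_erase, hS', Finset.mem_sdiff, List.mem_toFinset,
        List.mem_toFinset]
      conv_lhs => rw [hcons]
      rw [List.mem_cons]
      tauto
    rw [hE]
    have h2 := darts_erase G S' u' hu'
    have hdu : dg G S u' = 2 := hd u' (Walk.start_mem_support q)
    rw [Walk.length_cons, if_neg (Nat.succ_ne_zero _)]
    by_cases hl : q.length = 0
    · have h3 := dg_mono G (show S' ⊆ S from Finset.sdiff_subset) u'
      rw [if_pos hl] at hih
      omega
    · rw [if_neg hl] at hih
      have h4 : dg G S' u' ≤ 1 := by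
        cases q with
        | nil => exact absurd rfl hl
        | @cons _ u'' _ h' q' =>
          have hu'' : u'' ∈ (Walk.cons h' q').support.tail := by
            rw [Walk.support_cons]
            exact Walk.start_mem_support q'
          have h5 : S' ⊆ S.erase u'' := by
            intro w hw
            rw [hS', Finset.mem_sdiff, List.mem_toFinset] at hw
            exact Finset.mem_erase.2 ⟨fun h => hw.2 (h ▸ hu''), hw.1⟩
          have h6 := dg_mono G h5 u'
          have h7 := dg_erase G S u'' u' (hSq u'' (htq u'' hu'')) h'
          omega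
      omega

theorem t_UPATH : S_UPATH := by
  intro n k G S h1 h2 u v p hp hl hS hd
  have h3 := path_darts G S p hp hS hd
  rw [if_neg (by omega)] at h3
  set R := p.support.tail.toFinset with hR
  have hnd := hp.support_nodup
  have hcons : p.support = u :: p.support.tail := Walk.support_eq_cons p
  rw [hcons, List.nodup_cons] at hnd
  have hRc : R.card = p.length := by
    rw [hR, List.toFinset_card_of_nodup hnd.2, List.length_tail, Walk.length_support]
    rfl
  have hRS : R ⊆ S := by
    intro w hw
    rw [hR, List.mem_toFinset] at hw
    exact hS w (List.mem_of_mem_tail hw)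
  have huT : u ∈ S \ R := by
    rw [Finset.mem_sdiff, hR, List.mem_toFinset]
    exact ⟨hS u (Walk.start_mem_support p), hnd.1⟩
  have hTS : S \ R ⊂ S := by
    refine Finset.ssubset_iff_subset_ne.2 ⟨Finset.sdiff_subset, fun h => ?_⟩
    have h4 := Finset.card_sdiff_add_card_eq_card hRS
    rw [h] at h4
    omega
  have h4 := h2 (S \ R) hTS ⟨u, huT⟩
  have h5 := Finset.card_sdiff_add_card_eq_card hRS
  rw [hRc] at h5
  rw [← h5] at h1
  have h6 : n * (darts G S).card ≤ n * ((darts G (S \ R)).card + 2 * p.length + 2) :=
    Nat.mul_le_mul_left _ h3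
  nlinarith

end Pool.Agent.E8helper79.RG
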